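import Mathlib

open Matrix

namespace Pool.Agent.Results.MP_4722b0_al.NoQCommutator

/-- An irreducible tridiagonal square matrix. -/
def IrredTridiag {K : Type} [Field K] {n : ℕ} (B : Matrix (Fin n) (Fin n) K) : Prop :=
  ∀ i j : Fin n, (1 < |(i : ℤ) - (j : ℤ)| → B i j = 0) ∧ (|(i : ℤ) - (j : ℤ)| = 1 → B i j ≠ 0)

/-- Some ordered basis makes `A` diagonal and both `B` and `C` irreducible tridiagonal. -/
def DiagTriTri {K V : Type} [Field K] [AddCommGroup V] [Module K V] (A B C : Module.End K V) :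
    Prop :=
  ∃ (n : ℕ) (b : Module.Basis (Fin n) K V),
    (LinearMap.toMatrix b b A).IsDiag ∧ IrredTridiag (LinearMap.toMatrix b b B) ∧
      IrredTridiag (LinearMap.toMatrix b b C)

/-- Leonard triple. -/
def IsLeonardTriple {K V : Type} [Field K] [AddCommGroup V] [Module K V]
    (A B C : Module.End K V) : Prop :=
  DiagTriTri A B C ∧ DiagTriTri B A C ∧ DiagTriTri C A B

lemma dtt_of {K : Type} [Field K] (A B C P Q D T U : Matrix (Fin 3) (Fin 3) K) (h1 : P * Q = 1)
    (h2 : A * P = P * D) (h3 : B * P = P * T) (h4 : C * P = P * U) (hD : D.IsDiag)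
    (hT : IrredTridiag T) (hU : IrredTridiag U) :
    DiagTriTri (Matrix.toLin' A) (Matrix.toLin' B) (Matrix.toLin' C) := by
  have h1' : Q * P = 1 := mul_eq_one_comm.1 h1
  let e : (Fin 3 → K) ≃ₗ[K] (Fin 3 → K) := Matrix.toLin'OfInv h1 h1'
  let b : Module.Basis (Fin 3) K (Fin 3 → K) := (Pi.basisFun K (Fin 3)).map e.symm
  have key : ∀ M N : Matrix (Fin 3) (Fin 3) K, M * P = P * N →
      LinearMap.toMatrix b b (Matrix.toLin' M) = N := by
    intro M N hMN
    rw [show N = Q * M * P by rw [Matrix.mul_assoc, hMN, ← Matrix.mul_assoc, h1', Matrix.one_mul]]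
    ext i j
    rw [LinearMap.toMatrix_apply]
    simp only [b, Module.Basis.map_apply, Module.Basis.map_repr, LinearEquiv.symm_symm,
      LinearEquiv.trans_apply, Pi.basisFun_repr, Pi.basisFun_apply]
    change (Q *ᵥ (M *ᵥ (P *ᵥ Pi.single j 1))) i = _
    rw [Matrix.mulVec_mulVec, Matrix.mulVec_mulVec, Matrix.mulVec_single_one]
    rfl
  exact ⟨3, b, by rw [key _ _ h2]; exact hD, by rw [key _ _ h3]; exact hT,
    by rw [key _ _ h4]; exact hU⟩

theorem result (K : Type) [Field K] [CharZero K] : ∃ A B C : Module.End K (Fin 3 → K),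
    IsLeonardTriple A B C ∧ ∀ q : K, A * B - q • (B * A) ∉ Submodule.span K {1, A, B, C} := by
  let A : Matrix (Fin 3) (Fin 3) K := !![0, 0, 0; 0, 2, 0; 0, 0, 6]
  let B : Matrix (Fin 3) (Fin 3) K := !![1, 1, 0; 10, 0, 1; 0, 4, -2]
  let C : Matrix (Fin 3) (Fin 3) K := !![1, 1, 0; 10, 2, 1; 0, 4, 4]
  refine ⟨Matrix.toLin' A, Matrix.toLin' B, Matrix.toLin' C, ⟨?_, ?_, ?_⟩, ?_⟩
  · refine dtt_of A B C !![1, 0, 0; 0, 1, 0; 0, 0, 1]
      !![1, 0, 0; 0, 1, 0; 0, 0, 1]
      !![0, 0, 0; 0, 2, 0; 0, 0, 6]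
      !![1, 1, 0; 10, 0, 1; 0, 4, -2]
      !![1, 1, 0; 10, 2, 1; 0, 4, 4] ?_ ?_ ?_ ?_ ?_ ?_ ?_
    · ext i j; fin_cases i <;> fin_cases j <;> simp [Matrix.mul_apply, Fin.sum_univ_three] <;> norm_num
    · ext i j; fin_cases i <;> fin_cases j <;>
        simp [A, B, C, Matrix.mul_apply, Fin.sum_univ_three] <;> norm_num
    · ext i j; fin_cases i <;> fin_cases j <;>
        simp [A, B, C, Matrix.mul_apply, Fin.sum_univ_three] <;> norm_num
    · ext i j; fin_cases i <;> fin_cases j <;>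
        simp [A, B, C, Matrix.mul_apply, Fin.sum_univ_three] <;> norm_num
    · intro i j hij; fin_cases i <;> fin_cases j <;> simp at hij ⊢
    · intro i j; fin_cases i <;> fin_cases j <;> simp
    · intro i j; fin_cases i <;> fin_cases j <;> simp
  · refine dtt_of B A C !![1, 1, 1; -5, -2, 3; 10, -8, 2]
      !![1/6, -1/12, 1/24; 1/3, -1/15, -1/15; 1/2, 3/20, 1/40]
      !![-4, 0, 0; 0, -1, 0; 0, 0, 4]
      !![10/3, -5/3, 0; -10/3, 52/15, -6/5; 0, -9/5, 6/5]
      !![-2/3, -5/3, 0; -10/3, 37/15, -6/5; 0, -9/5, 26/5] ?_ ?_ ?_ ?_ ?_ ?_ ?_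
    · ext i j; fin_cases i <;> fin_cases j <;> simp [Matrix.mul_apply, Fin.sum_univ_three] <;> norm_num
    · ext i j; fin_cases i <;> fin_cases j <;>
        simp [A, B, C, Matrix.mul_apply, Fin.sum_univ_three] <;> norm_num
    · ext i j; fin_cases i <;> fin_cases j <;>
        simp [A, B, C, Matrix.mul_apply, Fin.sum_univ_three] <;> norm_num
    · ext i j; fin_cases i <;> fin_cases j <;>
        simp [A, B, C, Matrix.mul_apply, Fin.sum_univ_three] <;> norm_num
    · intro i j hij; fin_cases i <;> fin_cases j <;> simp at hij ⊢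
    · intro i j; fin_cases i <;> fin_cases j <;> simp
    · intro i j; fin_cases i <;> fin_cases j <;> simp
  · refine dtt_of C A B !![1, 1, 1; -3, 2, 5; 2, -8, 10]
      !![1/2, -3/20, 1/40; 1/3, 1/15, -1/15; 1/6, 1/12, 1/24]
      !![-2, 0, 0; 0, 3, 0; 0, 0, 6]
      !![6/5, -9/5, 0; -6/5, 52/15, -10/3; 0, -5/3, 10/3]
      !![-16/5, 9/5, 0; 6/5, -7/15, 10/3; 0, 5/3, 8/3] ?_ ?_ ?_ ?_ ?_ ?_ ?_
    · ext i j; fin_cases i <;> fin_cases j <;> simp [Matrix.mul_apply, Fin.sum_univ_three] <;> norm_num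
    · ext i j; fin_cases i <;> fin_cases j <;>
        simp [A, B, C, Matrix.mul_apply, Fin.sum_univ_three] <;> norm_num
    · ext i j; fin_cases i <;> fin_cases j <;>
        simp [A, B, C, Matrix.mul_apply, Fin.sum_univ_three] <;> norm_num
    · ext i j; fin_cases i <;> fin_cases j <;>
        simp [A, B, C, Matrix.mul_apply, Fin.sum_univ_three] <;> norm_num
    · intro i j hij; fin_cases i <;> fin_cases j <;> simp at hij ⊢
    · intro i j; fin_cases i <;> fin_cases j <;> simp
    · intro i j; fin_cases i <;> fin_cases j <;> simp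
  · intro q hq
    let φ : K → K → K → Module.End K (Fin 3 → K) →ₗ[K] K := fun a b c =>
      { toFun := fun f => a * f (Pi.single 1 1) 0 + b * f (Pi.single 0 1) 1 + c * f (Pi.single 2 1) 1
        map_add' := fun f g => by simp; ring
        map_smul' := fun r f => by simp; ring }
    have key : ∀ a b c : K, a + 10 * b + c = 0 →
        φ a b c (Matrix.toLin' A * Matrix.toLin' B - q • (Matrix.toLin' B * Matrix.toLin' A)) = 0 := by
      intro a b c habc
      have : Submodule.span K {1, Matrix.toLin' A, Matrix.toLin' B, Matrix.toLin' C} ≤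
          LinearMap.ker (φ a b c) := by
        rw [Submodule.span_le]
        rintro f (rfl | rfl | rfl | rfl) <;> simp [φ, A, B, C] <;> linear_combination habc
      exact this hq
    have h1 := key 10 (-1) 0 (by norm_num)
    have h2 := key 1 0 (-1) (by norm_num)
    simp [φ, A, B, Matrix.mulVec, dotProduct, Fin.sum_univ_three] at h1 h2
    have : (6 : K) = 0 := by linear_combination (-1 / 5) * h1 - h2
    norm_num at this

end Pool.Agent.Results.MP_4722b0_al.NoQCommutator
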